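import Pool.Agent.H20.QL.Defs

set_option autoImplicit false
open Finset

namespace Pool.Agent.H20.QL

namespace CardCov

variable {V : Type} [DecidableEq V]

/-- the ranges of the walks of length `m` starting in `x` -/
def rg (nb : V → Finset V) : ℕ → V → Finset (Finset V)
  | 0, x => {{x}}
  | m + 1, x => (nb x).biUnion fun y => (rg nb m y).image (insert x)

lemma rg_mem (nb : V → Finset V) : ∀ (m : ℕ) (w : ℕ → V),
    (∀ i, i < m → w (i + 1) ∈ nb (w i)) → (Finset.range (m + 1)).image w ∈ rg nb m (w 0) := by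
  intro m
  induction m with
  | zero =>
    intro w _
    simp [rg]
  | succ m ih =>
    intro w hw
    simp only [rg, mem_biUnion, mem_image]
    refine ⟨w 1, hw 0 (Nat.succ_pos _), (Finset.range (m + 1)).image (fun i => w (i + 1)),
      ih (fun i => w (i + 1)) (fun i hi => hw (i + 1) (by omega)), ?_⟩
    ext y
    simp only [mem_insert, mem_image, mem_range]
    constructor
    · rintro (rfl | ⟨i, hi, rfl⟩)
      · exact ⟨0, by omega, rfl⟩
      · exact ⟨i + 1, by omega, rfl⟩
    · rintro ⟨i, hi, rfl⟩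
      rcases i with _ | i
      · exact Or.inl rfl
      · exact Or.inr ⟨i, by omega, rfl⟩

lemma rg_card (nb : V → Finset V) (Δ : ℕ) (hΔ : ∀ x, (nb x).card ≤ Δ) : ∀ (m : ℕ) (x : V),
    (rg nb m x).card ≤ Δ ^ m := by
  intro m
  induction m with
  | zero => intro x; simp [rg]
  | succ m ih =>
    intro x
    simp only [rg]
    calc _ ≤ ∑ y ∈ nb x, ((rg nb m y).image (insert x)).card := card_biUnion_le
      _ ≤ ∑ y ∈ nb x, Δ ^ m := sum_le_sum fun y _ => card_image_le.trans (ih y)
      _ = (nb x).card * Δ ^ m := by simp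
      _ ≤ Δ * Δ ^ m := Nat.mul_le_mul_right _ (hΔ x)
      _ = Δ ^ (m + 1) := by ring

lemma rg_size (nb : V → Finset V) : ∀ (m : ℕ) (x : V) (S : Finset V), S ∈ rg nb m x →
    S.card ≤ m + 1 := by
  intro m
  induction m with
  | zero => intro x S hS; simp [rg] at hS; simp [hS]
  | succ m ih =>
    intro x S hS
    simp only [rg, mem_biUnion, mem_image] at hS
    obtain ⟨y, _, S', hS', rfl⟩ := hS
    exact (card_insert_le _ _).trans (Nat.succ_le_succ (ih y S' hS'))

end CardCov

open CardCov in
theorem cardcov : CardCovStmt := by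
  intro V _ _ nb Δ hΔ m x
  classical
  have hsub : ∀ W : Finset V, Cov nb m x W →
      W ∈ (rg nb m x).biUnion fun S => S.powerset := by
    rintro W ⟨w, hw0, hw, hW⟩
    simp only [mem_biUnion, mem_powerset]
    refine ⟨(Finset.range (m + 1)).image w, ?_, ?_⟩
    · rw [← hw0]; exact rg_mem nb m w hw
    · intro y hy
      obtain ⟨i, hi, rfl⟩ := hW y hy
      exact mem_image.2 ⟨i, mem_range.2 (by omega), rfl⟩
  have h1 : Nat.card {W : Finset V // Cov nb m x W} ≤
      ((rg nb m x).biUnion fun S => S.powerset).card := by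
    rw [← Nat.card_eq_finsetCard]
    exact Nat.card_le_card_of_injective
      (fun W : {W : Finset V // Cov nb m x W} =>
        (⟨W.1, hsub W.1 W.2⟩ : {W // W ∈ (rg nb m x).biUnion fun S => S.powerset}))
      (fun W W' h => Subtype.ext (by simpa using congrArg Subtype.val h))
  refine h1.trans ?_
  calc _ ≤ ∑ S ∈ rg nb m x, S.powerset.card := card_biUnion_le
    _ ≤ ∑ S ∈ rg nb m x, 2 ^ (m + 1) := by
        refine sum_le_sum fun S hS => ?_
        rw [card_powerset]
        exact Nat.pow_le_pow_right (by norm_num) (rg_size nb m x S hS)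
    _ = (rg nb m x).card * 2 ^ (m + 1) := by simp
    _ ≤ Δ ^ m * 2 ^ (m + 1) := Nat.mul_le_mul_right _ (rg_card nb Δ hΔ m x)
    _ = 2 ^ (m + 1) * Δ ^ m := by ring

end Pool.Agent.H20.QL
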