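import Pool.Agent.H20.QL.Defs

set_option autoImplicit false
open Finset

namespace Pool.Agent.H20.QL

namespace Weight

/-- linear functions are eventually smaller than `2 ^ l / 16` -/
lemma lin_le (A B : ℝ) : ∃ l0 : ℕ, ∀ l : ℕ, l0 ≤ l → A * l + B ≤ (2 : ℝ) ^ l / 16 := by
  have h1 : Filter.Tendsto (fun n : ℕ => (n : ℝ) ^ 1 / (2 : ℝ) ^ n) Filter.atTop (nhds 0) :=
    tendsto_pow_const_div_const_pow_of_one_lt 1 (by norm_num)
  have h2 : Filter.Tendsto (fun n : ℕ => (n : ℝ) ^ 0 / (2 : ℝ) ^ n) Filter.atTop (nhds 0) :=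
    tendsto_pow_const_div_const_pow_of_one_lt 0 (by norm_num)
  have h3 : Filter.Tendsto (fun n : ℕ => A * ((n : ℝ) ^ 1 / (2 : ℝ) ^ n) +
      B * ((n : ℝ) ^ 0 / (2 : ℝ) ^ n)) Filter.atTop (nhds (A * 0 + B * 0)) :=
    (h1.const_mul A).add (h2.const_mul B)
  have h4 : ∀ᶠ n : ℕ in Filter.atTop, A * ((n : ℝ) ^ 1 / (2 : ℝ) ^ n) +
      B * ((n : ℝ) ^ 0 / (2 : ℝ) ^ n) < 1 / 16 :=
    h3.eventually (gt_mem_nhds (by norm_num))
  obtain ⟨l0, h⟩ := Filter.eventually_atTop.1 h4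
  refine ⟨l0, fun l hl => ?_⟩
  have h5 := h l hl
  have hp : (0 : ℝ) < 2 ^ l := by positivity
  have h6 : A * ((l : ℝ) ^ 1 / (2 : ℝ) ^ l) + B * ((l : ℝ) ^ 0 / (2 : ℝ) ^ l) =
      (A * l + B) / 2 ^ l := by
    rw [pow_one, pow_zero]; field_simp
  rw [h6, div_lt_iff₀ hp] at h5
  linarith

/-- the ratio -/
noncomputable def q (Δ M l : ℕ) : ℝ :=
  (2 * (Δ : ℝ)) ^ (4 * (M * l) + 4) * (4 * (Real.exp (1 / 2) * Real.exp (-(2 ^ l / 16))))

lemma q_nonneg (Δ M l : ℕ) : 0 ≤ q Δ M l := by unfold q; positivity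

lemma q_small (Δ M : ℕ) : ∃ l0 : ℕ, ∀ l : ℕ, l0 ≤ l → q Δ M l ≤ (1 / 2 : ℝ) ^ (l + 3) := by
  set c : ℝ := Real.log (2 * Δ + 1) with hc
  have hc0 : 0 ≤ c := Real.log_nonneg (by have := Nat.cast_nonneg (α := ℝ) Δ; linarith)
  obtain ⟨l0, h⟩ := lin_le (4 * M * c + 1) (4 * c + 6)
  refine ⟨l0, fun l hl => ?_⟩
  have h1 := h l hl
  have hpos : (0 : ℝ) < 2 * Δ + 1 := by positivity
  have h2 : (2 * (Δ : ℝ)) ^ (4 * (M * l) + 4) ≤ Real.exp (c * (4 * (M * l) + 4 : ℕ)) := by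
    calc (2 * (Δ : ℝ)) ^ (4 * (M * l) + 4) ≤ (2 * Δ + 1) ^ (4 * (M * l) + 4) :=
          pow_le_pow_left₀ (by positivity) (by linarith) _
      _ = Real.exp (c * (4 * (M * l) + 4 : ℕ)) := by
          rw [mul_comm c, Real.exp_nat_mul, hc, Real.exp_log hpos]
  have h3 : (4 : ℝ) ≤ Real.exp 2 := by
    have := Real.add_one_le_exp (1 : ℝ)
    have h4 : Real.exp 2 = Real.exp 1 * Real.exp 1 := by rw [← Real.exp_add]; norm_num
    rw [h4]; nlinarith
  have h5 : Real.exp (-((l : ℝ) + 3)) ≤ (1 / 2 : ℝ) ^ (l + 3) := by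
    have h6 : Real.exp (-1) ≤ 1 / 2 := by
      have := Real.add_one_le_exp (1 : ℝ)
      rw [Real.exp_neg, ← one_div]
      exact one_div_le_one_div_of_le (by norm_num) (by linarith)
    calc Real.exp (-((l : ℝ) + 3)) = Real.exp (-1) ^ (l + 3) := by
          rw [← Real.exp_nat_mul]; congr 1; push_cast; ring
      _ ≤ _ := pow_le_pow_left₀ (Real.exp_nonneg _) h6 _
  refine le_trans ?_ h5
  unfold q
  calc (2 * (Δ : ℝ)) ^ (4 * (M * l) + 4) * (4 * (Real.exp (1 / 2) * Real.exp (-(2 ^ l / 16))))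
      ≤ Real.exp (c * (4 * (M * l) + 4 : ℕ)) *
        (Real.exp 2 * (Real.exp (1 / 2) * Real.exp (-(2 ^ l / 16)))) := by
        gcongr
    _ = Real.exp (c * (4 * (M * l) + 4 : ℕ) + (2 + (1 / 2 + -(2 ^ l / 16)))) := by
        rw [← Real.exp_add, ← Real.exp_add, ← Real.exp_add]
    _ ≤ Real.exp (-((l : ℝ) + 3)) := by
        apply Real.exp_le_exp.2
        push_cast
        nlinarith

/-- the inner sum -/
lemma geom (r : ℝ) (h0 : 0 ≤ r) (h1 : r ≤ 1 / 2) (n : ℕ) :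
    ∑ s ∈ (Finset.range n), 2 * r ^ (s + 1) ≤ 4 * r := by
  have h2 : ∑ s ∈ Finset.range n, r ^ s ≤ 2 := by
    have h3 : ∑ s ∈ Finset.range n, r ^ s ≤ ∑ s ∈ Finset.range n, (1 / 2 : ℝ) ^ s :=
      sum_le_sum fun s _ => pow_le_pow_left₀ h0 h1 s
    exact h3.trans (sum_geometric_two_le n)
  calc ∑ s ∈ (Finset.range n), 2 * r ^ (s + 1) = 2 * r * ∑ s ∈ Finset.range n, r ^ s := by
        rw [mul_sum]; apply sum_congr rfl; intro s _; ring
    _ ≤ 2 * r * 2 := by gcongr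
    _ = 4 * r := by ring

lemma outer (l0 lmax : ℕ) : ∑ l ∈ Finset.Icc l0 lmax, 4 * (1 / 2 : ℝ) ^ (l + 3) ≤ 1 := by
  have h1 : ∑ l ∈ Finset.Icc l0 lmax, 4 * (1 / 2 : ℝ) ^ (l + 3) ≤
      ∑ l ∈ Finset.range (lmax + 1), 4 * (1 / 2 : ℝ) ^ (l + 3) := by
    apply sum_le_sum_of_subset_of_nonneg
    · intro l hl; rw [mem_Icc] at hl; rw [mem_range]; omega
    · intros; positivity
  refine h1.trans ?_
  have h2 : ∑ l ∈ Finset.range (lmax + 1), 4 * (1 / 2 : ℝ) ^ (l + 3) =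
      1 / 2 * ∑ l ∈ Finset.range (lmax + 1), (1 / 2 : ℝ) ^ l := by
    rw [mul_sum]; apply sum_congr rfl; intro l _; ring
  rw [h2]
  have := sum_geometric_two_le (lmax + 1)
  linarith

/-- grouping by the cardinality -/
lemma group {V : Type} [Fintype V] [DecidableEq V] (F : Finset (Finset V)) (g : ℕ → ℝ)
    (hF : ∀ W ∈ F, 1 ≤ W.card) :
    ∑ W ∈ F, g W.card = ∑ s ∈ Finset.range (Fintype.card V),
      ((F.filter fun W => W.card = s + 1).card : ℝ) * g (s + 1) := by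
  have h1 : ∑ W ∈ F, g W.card = ∑ s ∈ Finset.range (Fintype.card V),
      ∑ W ∈ F.filter (fun W => W.card - 1 = s), g W.card := by
    refine (sum_fiberwise_of_maps_to (fun W hW => ?_) _).symm
    have h2 := hF W hW
    have h3 := card_le_univ W
    rw [mem_range]; omega
  rw [h1]
  apply sum_congr rfl
  intro s _
  have h4 : F.filter (fun W => W.card - 1 = s) = F.filter fun W => W.card = s + 1 := by
    apply filter_congr
    intro W hW
    have := hF W hW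
    constructor <;> intro h <;> omega
  rw [h4, ← nsmul_eq_mul, ← sum_const]
  apply sum_congr rfl
  intro W hW
  rw [(mem_filter.1 hW).2]

end Weight

open Weight Classical in
theorem weight (h : CardCovStmt) : WeightStmt := by
  intro Δ M
  obtain ⟨l0, hl0⟩ := q_small Δ M
  refine ⟨l0, fun V _ _ nb hΔ lmax x => ?_⟩
  refine le_trans (sum_le_sum fun l hl => ?_) (outer l0 lmax)
  rw [mem_Icc] at hl
  have hq := hl0 l hl.1
  have hq2 : q Δ M l ≤ 1 / 2 := by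
    refine hq.trans ?_
    calc (1 / 2 : ℝ) ^ (l + 3) ≤ (1 / 2 : ℝ) ^ 1 :=
          pow_le_pow_of_le_one (by norm_num) (by norm_num) (by omega)
      _ = 1 / 2 := pow_one _
  refine le_trans ?_ ((geom _ (q_nonneg Δ M l) hq2 (Fintype.card V)).trans
    (mul_le_mul_of_nonneg_left hq (by norm_num)))
  set F : Finset (Finset V) := (univ : Finset (Finset V)).filter (fun W => x ∈ W ∧
        Cov nb ((4 * (M * l) + 4) * W.card) x W) with hF
  have hF1 : ∀ W ∈ F, 1 ≤ W.card := fun W hW =>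
    card_pos.2 ⟨x, (mem_filter.1 hW).2.1⟩
  set g : ℕ → ℝ := fun s => (2 : ℝ) ^ s * (Real.exp (-((2 : ℝ) ^ l / 4 * s) / 4 + s / 2) *
        2 ^ s) with hg
  have h1 : ∑ W ∈ F, (2 : ℝ) ^ W.card * (Real.exp (-((2 : ℝ) ^ l / 4 * W.card) / 4 +
      W.card / 2) * 2 ^ W.card) = ∑ W ∈ F, g W.card := rfl
  rw [h1, group F g hF1]
  refine sum_le_sum fun s _ => ?_
  have h2 : ((F.filter fun W => W.card = s + 1).card : ℝ) ≤
      2 ^ ((4 * (M * l) + 4) * (s + 1) + 1) * (Δ : ℝ) ^ ((4 * (M * l) + 4) * (s + 1)) := by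
    have h3 : (F.filter fun W => W.card = s + 1).card ≤
        Nat.card {W : Finset V // Cov nb ((4 * (M * l) + 4) * (s + 1)) x W} := by
      rw [← Nat.card_eq_finsetCard]
      exact Nat.card_le_card_of_injective
        (fun W : ↥(F.filter fun W => W.card = s + 1) =>
          (⟨W.1, by
            have h4 := mem_filter.1 W.2
            have h5 := (mem_filter.1 h4.1).2.2
            rw [h4.2] at h5
            exact h5⟩ : {W : Finset V // Cov nb ((4 * (M * l) + 4) * (s + 1)) x W}))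
        (fun W W' hh => Subtype.ext (by simpa using congrArg Subtype.val hh))
    have h6 := h3.trans (h V nb Δ hΔ ((4 * (M * l) + 4) * (s + 1)) x)
    exact_mod_cast h6
  have hg0 : 0 ≤ g (s + 1) := by simp only [hg]; positivity
  refine (mul_le_mul_of_nonneg_right h2 hg0).trans (le_of_eq ?_)
  simp only [hg, q]
  have h7 : Real.exp (-((2 : ℝ) ^ l / 4 * ((s + 1 : ℕ) : ℝ)) / 4 + ((s + 1 : ℕ) : ℝ) / 2) =
      (Real.exp (1 / 2) * Real.exp (-(2 ^ l / 16))) ^ (s + 1) := by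
    rw [← Real.exp_add, ← Real.exp_nat_mul]
    congr 1
    ring
  rw [h7]
  have h8 : (2 : ℝ) ^ (s + 1) * ((Real.exp (1 / 2) * Real.exp (-(2 ^ l / 16))) ^ (s + 1) *
      2 ^ (s + 1)) = (4 * (Real.exp (1 / 2) * Real.exp (-(2 ^ l / 16)))) ^ (s + 1) := by
    rw [mul_pow 4, show (4 : ℝ) = 2 * 2 by norm_num, mul_pow (2:ℝ) 2]
    ring
  rw [h8]
  rw [pow_succ (2:ℝ) ((4 * (M * l) + 4) * (s + 1)), mul_pow ((2 * (Δ : ℝ)) ^ (4 * (M * l) + 4)),
    ← pow_mul, mul_pow 2 (Δ:ℝ)]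
  ring

end Pool.Agent.H20.QL
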